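import Pool.Agent.Lib.MP_7b255b_ntU.Mn

/-!
# The sup norms of the K-types in the mean square over the weights

`Γ` is a cocompact lattice in `G = SL(2, ℝ)`, `π` an irreducible unitary representation of `G`, `η` an automorphic
functional of `Γ`, `paut π η v` the sup norm of the automorphic function `g ↦ η(π(g) v)`, and `e n` a unit vector of the
weight `n`. Then the mean square of `paut π η (e n)` over the weights with `N ≤ |n| < 2 N` is `O(N ^ (1 / 2 + ε))`, and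
`paut π η (e n) ≤ N ^ (1 / 4 + δ)` for all of these weights with at most `O(N ^ (1 - δ))` exceptions.
-/

set_option autoImplicit false

namespace Pool.Agent.Results.MP_7b255b_nt.MeanSupKTypes

open MPkt MPku

universe u

theorem result (Γ : Subgroup G) (hΓ : IsCocpt Γ) {H : Type u} [NormedAddCommGroup H] [InnerProductSpace ℂ H]
    [CompleteSpace H] (π : URep H) (hI : Irred π) (η : H → ℂ) (hη : IsAut π Γ η) :
    (∀ v, Smooth π v → BddAbove (Set.range fun g : G => ‖η (π.r g v)‖)) ∧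
    (∀ ε : ℝ, 0 < ε → ∃ C : ℝ, ∀ (N : ℕ) (e : ℤ → H) (B : Finset ℤ), 1 ≤ N →
      (∀ n ∈ B, (N : ℤ) ≤ |n| ∧ |n| < 2 * N) →
      (∀ n ∈ B, Smooth π (e n) ∧ IsWeight π n (e n) ∧ ‖e n‖ = 1) →
      ∑ n ∈ B, paut π η (e n) ^ 2 ≤ C * (N : ℝ) ^ (3 / 2 + ε)) ∧
    (∀ δ : ℝ, 0 < δ → ∃ C : ℝ, ∀ (N : ℕ) (B : Finset ℤ), 1 ≤ N →
      (∀ n ∈ B, (N : ℤ) ≤ |n| ∧ |n| < 2 * N ∧ ∃ e : H, Smooth π e ∧ IsWeight π n e ∧ ‖e‖ = 1 ∧
        (N : ℝ) ^ (1 / 4 + δ) < paut π η e) →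
      (B.card : ℝ) ≤ C * (N : ℝ) ^ (1 - δ)) := by
  refine ⟨fun v hv => paut_bdd hΓ hη hv, fun ε hε => main hI hΓ hη ε hε, fun δ hδ => ?_⟩
  obtain ⟨C, hC⟩ := main hI hΓ hη δ hδ
  refine ⟨C, fun N B hN hB => ?_⟩
  have hN0 : (0 : ℝ) < N := by exact_mod_cast hN
  have h1 : ∀ n : ℤ, ∃ e : H, n ∈ B → (Smooth π e ∧ IsWeight π n e ∧ ‖e‖ = 1 ∧
      (N : ℝ) ^ (1 / 4 + δ) < paut π η e) := by
    intro n
    by_cases hn : n ∈ B
    · obtain ⟨e, he⟩ := (hB n hn).2.2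
      exact ⟨e, fun _ => he⟩
    · exact ⟨0, fun h => absurd h hn⟩
  choose e he using h1
  have h2 := hC N e B hN (fun n hn => ⟨(hB n hn).1, (hB n hn).2.1⟩)
    (fun n hn => ⟨(he n hn).1, (he n hn).2.1, (he n hn).2.2.1⟩)
  have h3 : (B.card : ℝ) * ((N : ℝ) ^ (1 / 4 + δ)) ^ 2 ≤ ∑ n ∈ B, paut π η (e n) ^ 2 := by
    have h4 := Finset.card_nsmul_le_sum B (fun n => paut π η (e n) ^ 2) (((N : ℝ) ^ (1 / 4 + δ)) ^ 2) (fun n hn =>
      pow_le_pow_left₀ (Real.rpow_nonneg hN0.le _) (he n hn).2.2.2.le 2)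
    rw [nsmul_eq_mul] at h4
    exact h4
  have h4 : ((N : ℝ) ^ (1 / 4 + δ)) ^ 2 = (N : ℝ) ^ (1 / 2 + 2 * δ) := by
    rw [← Real.rpow_natCast, ← Real.rpow_mul hN0.le]
    congr 1
    push_cast
    ring
  have h5 : (B.card : ℝ) * (N : ℝ) ^ (1 / 2 + 2 * δ) ≤ C * (N : ℝ) ^ (1 - δ) * (N : ℝ) ^ (1 / 2 + 2 * δ) := by
    rw [← h4, mul_assoc, h4, ← Real.rpow_add hN0]
    rw [h4] at h3
    refine h3.trans (h2.trans_eq ?_)
    congr 2
    ring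
  exact le_of_mul_le_mul_right h5 (Real.rpow_pos_of_pos hN0 _)

end Pool.Agent.Results.MP_7b255b_nt.MeanSupKTypes
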