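import Pool.Agent.Lib.MP_7b255b_nt.Main

/-!
# The size of the K-types of the automorphic forms on compact arithmetic quotients is not bounded

For a positive integer `b` which is not a sum of two squares, `Gam b` is the group of the elements of norm one of the
order `ℤ + ℤ i + ℤ j + ℤ i j`, `i ^ 2 = -1`, `j ^ 2 = b`. It is a cocompact lattice in `SL(2, ℝ)`. For every nontrivial
irreducible unitary representation and every automorphic functional `η` of `Gam b` there is a point `g` of the form
`β.hh` (`g = 1` if `η` is an eigenfunctional of the Hecke operators at the primes `p = 1 mod 4`, `p ∤ b`) with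
`sup_n ‖η(π(g) e_n)‖ = ∞`, where `e_n` are the unit vectors of weight `n ≠ 0`.
-/

set_option autoImplicit false

namespace Pool.Agent.Results.MP_7b255b_nt.OmegaKTypes

open MPkt

universe u

theorem result (b : ℕ) (hb : ∀ x y : ℕ, b ≠ x ^ 2 + y ^ 2) :
    IsCocpt (Gam b) ∧
    ∀ {H : Type u} [NormedAddCommGroup H] [InnerProductSpace ℂ H] [CompleteSpace H] (π : URep H),
      Irred π → (∃ g v, π.r g v ≠ v) → ∀ η : H → ℂ, IsAut π (Gam b) η →
      ∃ β : Ob b, 0 < β.N ∧ (IsEig b π η → β = 1) ∧ ∀ M : ℝ,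
        ∃ n : ℤ, n ≠ 0 ∧ ∃ e : H, Smooth π e ∧ IsWeight π n e ∧ ‖e‖ = 1 ∧ M < ‖η (π.r β.hh e)‖ :=
  ⟨cocpt hb, fun _ hI hn _ hη => main hb hI hn hη⟩

end Pool.Agent.Results.MP_7b255b_nt.OmegaKTypes
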